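import Pool.Agent.W323.PT.Stm

set_option autoImplicit false

namespace Pool.Agent.W280.PT

open Pool.Agent.W323.PT

/-- coordinates -/
def e (u : EuclideanSpace ℝ (Fin 2)) : Pt := (u 0, u 1)

/-- inverse of `e` -/
noncomputable def f (p : Pt) : EuclideanSpace ℝ (Fin 2) := WithLp.toLp 2 ![p.1, p.2]

theorem e_lin : IsLinearMap ℝ e := by
  constructor
  · intro x y; rfl
  · intro c x; rfl

theorem f_e (u : EuclideanSpace ℝ (Fin 2)) : f (e u) = u := by
  ext i
  fin_cases i <;> rfl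

theorem e_f (p : Pt) : e (f p) = p := rfl

theorem e_inj : Function.Injective e := Function.LeftInverse.injective f_e

theorem two_points {α : Type} (x : α) (P : Finset α) (h : P.card ≤ 2) :
    ∃ u v : α, ∀ p ∈ P, p = u ∨ p = v := by
  classical
  have h3 : P.card = 0 ∨ P.card = 1 ∨ P.card = 2 := by omega
  rcases h3 with h0 | h1 | h2
  · rw [Finset.card_eq_zero] at h0
    exact ⟨x, x, by rw [h0]; intro p hp; exact absurd hp (Finset.notMem_empty p)⟩
  · obtain ⟨a, ha⟩ := Finset.card_eq_one.mp h1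
    exact ⟨a, a, by rw [ha]; intro p hp; exact Or.inl (Finset.mem_singleton.mp hp)⟩
  · obtain ⟨a, b, _, hab⟩ := Finset.card_eq_two.mp h2
    refine ⟨a, b, ?_⟩
    rw [hab]
    intro p hp
    rw [Finset.mem_insert, Finset.mem_singleton] at hp
    exact hp

theorem frozen : S_Fin →
    ∃ k₀ : ℕ, ∀ F : Finset (Set (EuclideanSpace ℝ (Fin 2))),
      (∀ C ∈ F, Convex ℝ C) →
      (∀ G ⊆ F, G.card ≤ k₀ →
        ∃ P : Finset (EuclideanSpace ℝ (Fin 2)), P.card ≤ 2 ∧ ∀ C ∈ G, ∃ p ∈ P, p ∈ C) →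
      ∃ P : Finset (EuclideanSpace ℝ (Fin 2)), P.card ≤ 3 ∧ ∀ C ∈ F, ∃ p ∈ P, p ∈ C := by
  classical
  rintro ⟨k, hk⟩
  refine ⟨k, ?_⟩
  intro F hF hloc
  have hconv : ∀ C ∈ F.image (fun C => e '' C), Convex ℝ C := by
    intro C' hC'
    obtain ⟨C, hC, rfl⟩ := Finset.mem_image.mp hC'
    exact (hF C hC).is_linear_image e_lin
  have hL : Loc k (F.image (fun C => e '' C)) := by
    intro G' hG' hcard
    have hGF : G'.image (fun C' => e ⁻¹' C') ⊆ F := by
      intro D hD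
      obtain ⟨C', hC', rfl⟩ := Finset.mem_image.mp hD
      obtain ⟨C, hC, hCe⟩ := Finset.mem_image.mp (hG' hC')
      have : e ⁻¹' C' = C := by
        rw [← hCe]
        exact Set.preimage_image_eq C e_inj
      rw [this]
      exact hC
    obtain ⟨P, hP, hPG⟩ := hloc (G'.image (fun C' => e ⁻¹' C')) hGF (le_trans Finset.card_image_le hcard)
    obtain ⟨u, v, huv⟩ := two_points (0 : EuclideanSpace ℝ (Fin 2)) P hP
    refine ⟨e u, e v, ?_⟩
    intro C' hC'
    obtain ⟨p, hp, hpC⟩ := hPG (e ⁻¹' C') (Finset.mem_image.mpr ⟨C', hC', rfl⟩)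
    rcases huv p hp with h | h
    · left; rw [← h]; exact hpC
    · right; rw [← h]; exact hpC
  obtain ⟨S, hS, hSF⟩ := hk _ hconv hL
  refine ⟨S.image f, le_trans Finset.card_image_le hS, ?_⟩
  intro C hC
  obtain ⟨p, hp, hpC⟩ := hSF (e '' C) (Finset.mem_image.mpr ⟨C, hC, rfl⟩)
  obtain ⟨c, hc, hce⟩ := hpC
  refine ⟨f p, Finset.mem_image.mpr ⟨p, hp, rfl⟩, ?_⟩
  rw [← hce, f_e]
  exact hc

end Pool.Agent.W280.PT
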